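import Pool.Agent.H22.SemiAlg1
import Pool.Agent.H22.SemiAlg3

set_option autoImplicit false

namespace Pool.Agent.Results.MP_83c24b_al.Twist

open MvPolynomial

/-- The group of K-points of an affine algebraic group: a group identified by coordinates with a
Zariski closed subset of an affine space, with polynomial multiplication and inversion. -/
structure AlgGrp (K : Type) [Field K] : Type 1 where
  G : Type
  [grp : Group G]
  ι : Type
  [fin : Fintype ι]
  c : G → ι → K
  inj : Function.Injective c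
  closed : ∃ S : Set (MvPolynomial ι K), Set.range c = {x | ∀ p ∈ S, eval x p = 0}
  mul_poly : ∃ P : ι → MvPolynomial (ι ⊕ ι) K, ∀ g h i,
    c (g * h) i = eval (Sum.elim (c g) (c h)) (P i)
  inv_poly : ∃ P : ι → MvPolynomial ι K, ∀ g i, c g⁻¹ i = eval (c g) (P i)

attribute [instance] AlgGrp.grp

/-- A field automorphism applied to the coordinates followed by a polynomial map. -/
def Semialg {K : Type} [Field K] {G H : AlgGrp K} (φ : G.G ≃* H.G) : Prop :=
  ∃ (σ : K ≃+* K) (P : H.ι → MvPolynomial G.ι K), ∀ g j,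
    H.c (φ g) j = eval (fun i => σ (G.c g i)) (P j)

/-- Trivial centre, no direct decomposition even as an abstract group, and no proper subgroup of
finite index. -/
def Good (G : Type) [Group G] : Prop :=
  Subgroup.center G = ⊥ ∧
    (∀ (G1 G2 : Type) [Group G1] [Group G2], (G ≃* G1 × G2) → Subsingleton G1 ∨ Subsingleton G2) ∧
    ∀ H : Subgroup G, H.FiniteIndex → H = ⊤

open Pool.Agent.H22.SemiAlg TrivSqZeroExt DualNumber

section

variable {K : Type} [Field K]

noncomputable def PP {T ι : Type} (c : T → ι → K) : Subalgebra K (T → K) :=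
  (aeval (fun i t => c t i) : MvPolynomial ι K →ₐ[K] (T → K)).range

theorem pp_ex {T ι : Type} {c : T → ι → K} {F : T → K} (h : F ∈ PP c) :
    ∃ p, ∀ t, F t = eval (c t) p := by
  obtain ⟨p, rfl⟩ := h
  refine ⟨p, fun t => ?_⟩
  induction p using MvPolynomial.induction_on <;> simp_all

theorem pp_c {T ι : Type} (c : T → ι → K) (i : ι) : (fun t => c t i) ∈ PP c := ⟨X i, by simp⟩

def PA {T ι : Type} (c : T → ι → K) (F : T → DualNumber K) : Prop :=
  (fun t => (F t).fst) ∈ PP c ∧ (fun t => (F t).snd) ∈ PP c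

theorem PA.add {T ι : Type} {c : T → ι → K} {F F' : T → DualNumber K} (h : PA c F) (h' : PA c F') :
    PA c fun t => F t + F' t := ⟨add_mem h.1 h'.1, add_mem h.2 h'.2⟩

theorem PA.neg {T ι : Type} {c : T → ι → K} {F : T → DualNumber K} (h : PA c F) :
    PA c fun t => -F t := ⟨neg_mem h.1, neg_mem h.2⟩

theorem PA.mul {T ι : Type} {c : T → ι → K} {F F' : T → DualNumber K} (h : PA c F) (h' : PA c F') :
    PA c fun t => F t * F' t := by
  refine ⟨mul_mem h.1 h'.1, ?_⟩
  simp only [DualNumber.snd_mul]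
  exact add_mem (mul_mem h.1 h'.2) (mul_mem h.2 h'.1)

theorem PA.const {T ι : Type} {c : T → ι → K} (x : DualNumber K) : PA c fun _ => x :=
  ⟨(PP c).algebraMap_mem x.fst, (PP c).algebraMap_mem x.snd⟩

theorem PA.act {T ι : Type} {c : T → ι → K} (a : DualNumber K) {u s r : T → DualNumber K}
    {m : T → Fin 6 → DualNumber K} (hu : PA c u) (hs : PA c s) (hr : PA c r)
    (hm : ∀ i, PA c fun t => m t i) (i : Fin 6) : PA c fun t => act a (u t) (s t) (r t) (m t) i := by
  have h2 : PA c fun t => s t ^ 2 := by simpa only [pow_two] using hs.mul hs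
  fin_cases i
  · exact hu.mul (hm 0)
  · exact hu.mul ((hm 1).add (hs.mul (hm 0)))
  · exact hu.mul (((hm 2).add (((PA.const 2).mul hs).mul (hm 1))).add ((h2.add hr).mul (hm 0)))
  · exact hu.mul (hm 3)
  · exact hu.mul ((hm 4).add (hs.mul (hm 3)))
  · exact hu.mul (((hm 5).add (((PA.const 2).mul hs).mul (hm 4))).add
      ((h2.add (hr.mul (PA.const a))).mul (hm 3)))

abbrev J : Type := Option ((Fin 3 ⊕ Fin 6) × Bool)

def vec {a : DualNumber K} (g : G a) : Fin 3 ⊕ Fin 6 → DualNumber K :=
  Sum.elim ![g.u, g.s, g.r] g.m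

def co {a : DualNumber K} (g : G a) : J → K
  | none => (↑g.u⁻¹ : DualNumber K).fst
  | some (k, false) => (vec g k).fst
  | some (k, true) => (vec g k).snd

theorem co_poly {T ι : Type} {c : T → ι → K} {a : DualNumber K} (F : T → G a)
    (h0 : (fun t => (↑(F t).u⁻¹ : DualNumber K).fst) ∈ PP c) (h1 : PA c fun t => (F t).u)
    (h2 : PA c fun t => (F t).s) (h3 : PA c fun t => (F t).r) (h4 : ∀ i, PA c fun t => (F t).m i) :
    ∃ P : J → MvPolynomial ι K, ∀ t j, co (F t) j = eval (c t) (P j) := by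
  have h : ∀ k, PA c fun t => vec (F t) k := by
    rintro (k | k)
    · fin_cases k <;> assumption
    · exact h4 k
  have : ∀ j, ∃ p, ∀ t, co (F t) j = eval (c t) p := by
    rintro (_ | ⟨k, _ | _⟩)
    · exact pp_ex h0
    · exact pp_ex (h k).1
    · exact pp_ex (h k).2
  choose P hP using this
  exact ⟨P, fun t j => hP j t⟩

theorem uinv (u : (DualNumber K)ˣ) : (↑u⁻¹ : DualNumber K).fst * (u : DualNumber K).fst = 1 ∧
    (↑u⁻¹ : DualNumber K).snd =
      -((↑u⁻¹ : DualNumber K).fst * (↑u⁻¹ : DualNumber K).fst * (u : DualNumber K).snd) := by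
  have h1 := congrArg TrivSqZeroExt.fst u.inv_mul
  have h2 := congrArg TrivSqZeroExt.snd u.inv_mul
  simp only [fst_mul, fst_one, DualNumber.snd_mul, snd_one] at h1 h2
  exact ⟨h1, by linear_combination (↑u⁻¹ : DualNumber K).fst * h2 - (↑u⁻¹ : DualNumber K).snd * h1⟩

noncomputable def AG (a : DualNumber K) : AlgGrp K where
  G := G a
  ι := J
  c := co
  inj g h e := by
    have k : ∀ k, vec g k = vec h k := fun k =>
      TrivSqZeroExt.ext (congrFun e (some (k, false))) (congrFun e (some (k, true)))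
    exact G.ext (Units.ext (k (Sum.inl 0))) (k (Sum.inl 1)) (k (Sum.inl 2)) (funext fun i => k (Sum.inr i))
  closed := by
    refine ⟨{X none * X (some (Sum.inl 0, false)) - 1}, Set.ext fun x => ⟨?_, fun h => ?_⟩⟩
    · rintro ⟨g, rfl⟩ p rfl
      simp only [map_sub, map_mul, eval_X, map_one, sub_eq_zero]
      exact (uinv g.u).1
    · have h1 : x none * x (some (Sum.inl 0, false)) = 1 := by simpa [sub_eq_zero] using h _ rfl
      obtain ⟨v, hv⟩ : ∃ v : Fin 3 ⊕ Fin 6 → DualNumber K,
        ∀ k, (v k).fst = x (some (k, false)) ∧ (v k).snd = x (some (k, true)) :=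
        ⟨fun k => (x (some (k, false)), x (some (k, true))), fun _ => ⟨rfl, rfl⟩⟩
      have h2 : v (Sum.inl 0) * (inl (x none) - inr (x none ^ 2 * x (some (Sum.inl 0, true)))) = 1 := by
        ext
        · simp [hv, mul_comm, h1]
        · simp [hv]
          linear_combination (-x none * x (some (Sum.inl 0, true))) * h1
      refine ⟨⟨⟨_, _, h2, (mul_comm _ _).trans h2⟩, v (Sum.inl 1), v (Sum.inl 2), fun i => v (Sum.inr i)⟩, ?_⟩
      have h3 : vec (⟨⟨_, _, h2, (mul_comm _ _).trans h2⟩, v (Sum.inl 1), v (Sum.inl 2),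
          fun i => v (Sum.inr i)⟩ : G a) = v := by
        funext k
        rcases k with k | k
        · fin_cases k <;> rfl
        · rfl
      funext j
      rcases j with _ | ⟨k, _ | _⟩
      · simp [co]
      · simp only [co, h3, hv]
      · simp only [co, h3, hv]
  mul_poly := by
    obtain ⟨c, hc⟩ : ∃ c : G a × G a → J ⊕ J → K, c = fun t => Sum.elim (co t.1) (co t.2) :=
      ⟨_, rfl⟩
    have l0 : ∀ j, (fun t : G a × G a => co t.1 j) ∈ PP c := fun j => by
      have := pp_c c (Sum.inl j)
      subst hc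
      exact this
    have r0 : ∀ j, (fun t : G a × G a => co t.2 j) ∈ PP c := fun j => by
      have := pp_c c (Sum.inr j)
      subst hc
      exact this
    have l : ∀ k, PA c fun t => vec t.1 k := fun k => ⟨l0 (some (k, false)), l0 (some (k, true))⟩
    have r : ∀ k, PA c fun t => vec t.2 k := fun k => ⟨r0 (some (k, false)), r0 (some (k, true))⟩
    obtain ⟨P, hP⟩ := co_poly (c := c) (fun t => t.1 * t.2) (by
        exact mul_mem (r0 none) (l0 none))
      ((l (Sum.inl 0)).mul (r (Sum.inl 0))) ((l (Sum.inl 1)).add (r (Sum.inl 1)))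
      ((l (Sum.inl 2)).add (r (Sum.inl 2)))
      fun i => (l (Sum.inr i)).add (PA.act a (l (Sum.inl 0)) (l (Sum.inl 1)) (l (Sum.inl 2))
        (fun i => r (Sum.inr i)) i)
    subst hc
    exact ⟨P, fun g h i => hP (g, h) i⟩
  inv_poly := by
    have l0 : ∀ j, (fun t : G a => co t j) ∈ PP co := pp_c co
    have l : ∀ k, PA co fun t : G a => vec t k := fun k =>
      ⟨l0 (some (k, false)), l0 (some (k, true))⟩
    have h : PA co fun t : G a => (↑t.u⁻¹ : DualNumber K) := by
      refine ⟨l0 none, ?_⟩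
      simp only [(uinv _).2]
      exact neg_mem (mul_mem (mul_mem (l0 none) (l0 none)) (l (Sum.inl 0)).2)
    exact co_poly (c := co) (fun t => t⁻¹) (l (Sum.inl 0)).1 h (l (Sum.inl 1)).neg (l (Sum.inl 2)).neg
      fun i => (PA.act a h (l (Sum.inl 1)).neg (l (Sum.inl 2)).neg (fun i => l (Sum.inr i)) i).neg

theorem unit_iff (x : DualNumber K) : IsUnit x ↔ x.fst ≠ 0 := by
  rw [isUnit_iff_isUnit_fst, isUnit_iff_ne_zero]

theorem two_unit [CharZero K] : ∃ z : (DualNumber K)ˣ, (z : DualNumber K) = 2 :=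
  (unit_iff _).mpr (two_ne_zero (α := K))

theorem good [CharZero K] [IsAlgClosed K] (a : DualNumber K) : Good (G a) := by
  obtain ⟨z, hz⟩ := two_unit (K := K)
  have h : IsUnit ((z : DualNumber K) - 1) := by
    rw [hz, show (2 : DualNumber K) - 1 = 1 by norm_num]
    exact isUnit_one
  refine ⟨center_triv z h, indec z h fun x y => ?_, conn (fun n hn => ?_) fun n hn u => ?_⟩
  · simp only [unit_iff, fst_sub, fst_mul, fst_one, sub_ne_zero]
    intro h
    by_contra k
    push Not at k
    exact h (by rw [k.1, k.2, one_mul])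
  · refine ⟨inl (n : K)⁻¹, ?_⟩
    rw [← inl_natCast, ← inl_mul, mul_inv_cancel₀ (Nat.cast_ne_zero.mpr hn), inl_one]
  · obtain ⟨t, ht⟩ := IsAlgClosed.exists_pow_nat_eq (u : DualNumber K).fst (Nat.pos_of_ne_zero hn)
    have h1 : t ≠ 0 := by
      rintro rfl
      exact (unit_iff _).mp u.isUnit (by rw [← ht, zero_pow hn])
    have h2 : (n : K) ≠ 0 := Nat.cast_ne_zero.mpr hn
    obtain ⟨v, hv⟩ := (unit_iff (inl t + inr ((u : DualNumber K).snd / (n * t ^ (n - 1))))).mpr
      (by simpa using h1)
    refine ⟨v, Units.ext ?_⟩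
    rw [Units.val_pow_eq_pow_val, hv]
    ext
    · simp [ht]
    · simp [snd_pow]
      field_simp

theorem ev_ae {ι : Type} (x : ι → Polynomial K) (p : MvPolynomial ι K) (t : K) :
    Polynomial.eval t (aeval x p) = eval (fun i => Polynomial.eval t (x i)) p := by
  induction p using MvPolynomial.induction_on <;> simp_all

theorem no_semi [CharZero K] (l : K) (h0 : l ≠ 0) (h1 : l ≠ 1)
    (φ : (AG (inl l : DualNumber K)).G ≃* (AG (inl l + ε : DualNumber K)).G) : ¬ Semialg φ := by
  rintro ⟨σ, P, hP⟩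
  obtain ⟨z, hz⟩ := two_unit (K := K)
  choose f hf using map_M z hz φ
  have fa : ∀ (n : ℕ) m, f ((n : DualNumber K) • m) = (n : DualNumber K) • f m := fun n m =>
    iM_inj (by rw [← hf, ← pow_M, ← pow_M, ← hf]; exact map_pow φ _ _)
  refine nonex l h0 h1 σ φ f hf (fun m => ?_) fun c m => ?_
  · obtain ⟨m', h⟩ := map_M z hz φ.symm m
    exact ⟨m', iM_inj ((hf m').symm.trans ((congrArg φ h.symm).trans (φ.apply_symm_apply _)))⟩
  have lin : ∀ (a : DualNumber K) (m : Fin 6 → DualNumber K) (t : K) (j : J),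
      co (iM ((inl t : DualNumber K) • m) : G a) j =
        co (iM 0 : G a) j + t * (co (iM m : G a) j - co (iM 0 : G a) j) := by
    rintro a m t (_ | ⟨k | k, _ | _⟩)
    · simp [co, iM]
    · fin_cases k <;> simp [co, iM, vec]
    · fin_cases k <;> simp [co, iM, vec]
    · simp [co, iM, vec]
    · simp [co, iM, vec]
  have key : ∀ j, co (iM (f ((inl c : DualNumber K) • m)) : G (inl l + ε : DualNumber K)) j =
      co (iM ((inl (σ c) : DualNumber K) • f m) : G (inl l + ε : DualNumber K)) j := fun j => by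
    obtain ⟨Q, hQ⟩ : ∃ Q : Polynomial K, ∀ t : K, Q.eval (σ t) =
        co (iM (f ((inl t : DualNumber K) • m)) : G (inl l + ε : DualNumber K)) j := by
      refine ⟨aeval (fun i => Polynomial.C (σ (co (iM 0 : G (inl l : DualNumber K)) i)) +
        Polynomial.X * Polynomial.C (σ (co (iM m : G (inl l : DualNumber K)) i -
          co (iM 0 : G (inl l : DualNumber K)) i))) (P j), fun t => ?_⟩
      rw [← hf]
      refine Eq.trans ?_ (hP _ j).symm
      rw [ev_ae]
      refine congrArg (fun x => eval x (P j)) (funext fun i => ?_)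
      change _ = σ (co _ i)
      rw [lin _ m t i]
      simp
    have : Q = Polynomial.C (co (iM 0 : G (inl l + ε : DualNumber K)) j) + Polynomial.X *
        Polynomial.C (co (iM (f m) : G (inl l + ε : DualNumber K)) j -
          co (iM 0 : G (inl l + ε : DualNumber K)) j) := by
      refine Polynomial.eq_of_infinite_eval_eq _ _
        ((Set.infinite_range_of_injective (Nat.cast_injective (R := K))).mono ?_)
      rintro _ ⟨n, rfl⟩
      have := hQ n
      rw [map_natCast, inl_natCast, fa, ← inl_natCast, lin] at this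
      simpa using this
    rw [← hQ, this, lin _ (f m) (σ c) j]
    simp
  exact iM_inj ((AG (inl l + ε : DualNumber K)).inj (funext key))

end

theorem result :
    ∃ (K : Type) (_ : Field K) (_ : IsAlgClosed K) (G H : AlgGrp K), CharZero K ∧
      Good G.G ∧ Good H.G ∧ Nonempty (G.G ≃* H.G) ∧ ∀ φ : G.G ≃* H.G, ¬ Semialg φ := by
  obtain ⟨l, φ, h0, h1, h2⟩ := ex_aut
  exact ⟨K0, inferInstance, inferInstance, AG (inl l), AG (inl l + ε), inferInstance, good _,
    good _, ⟨gmap φ h2⟩, no_semi l h0 h1⟩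

end Pool.Agent.Results.MP_83c24b_al.Twist
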